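import Mathlib
import Pool.Agent.Hhelper39.PHGDefs
import Pool.Agent.Hhelper39.PHGProof

/-!
# Non-projective maximal arcs in projective Hjelmslev planes over chain rings

For a finite commutative chain ring `R` of nilpotency index two with residue field of order `q`,
and for all `a ≥ 1` and `n` with `q^2 + a ≤ n ≤ q^2 + q - a`, there is a maximal `(k,n)`-arc in
`PHG(2,R)`, `k = q(q+1)n - q^3`, having a point of multiplicity exactly `a`.  For `a = 2`
(so `q ≥ 4`) this refutes the assertion that every maximal `(k,n)`-arc with `n ≤ q^2 + q` is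
projective.

Construction.  On the points whose last coordinate is a unit the arc is `1`.
On a point `(x, y, τ z)` (last coordinate in the radical) it is `A (z / x)` if `x` is a unit
(`A` is the indicator of a set of `s = n - q^2` residues) and `B (z / y)` if `x` is in the radical,
where `B 0 = 0`, `∑ B = s`, `B ≤ q - s` and `B` takes the value `a`.

Upper bound.  If some neighbour class has multiplicity `> q(q-1)`, then in each direction it has a
segment of multiplicity `≥ q`, and summing `K` over the lines through such segments gives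
`|K| ≤ q(q+1)n - q^3`; otherwise `|K| ≤ q(q-1)(q^2+q+1) ≤ q^4`.
-/

set_option autoImplicit false

namespace Pool.Agent.Results.MP_4f92f0_co.NonProjectiveMaximalArcs

open Pool.Agent.Hhelper39.PHG

universe u

/-- **Main result.**

(1) Let `R` be a finite commutative chain ring of nilpotency index two, `q` the order of its residue
field.  For all natural numbers `a, n` with `1 ≤ a`, `q^2 + a ≤ n` and `n + a ≤ q^2 + q` there is a
multiset of points `K` which is a maximal `(k,n)`-arc in `PHG(2,R)`, `k = q(q+1)n - q^3`, and has a
point of multiplicity exactly `a`.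

(2) In particular the negated form of the question holds: for some such `R` and some `n ≤ q^2 + q`
there is a maximal `(k,n)`-arc with a point of multiplicity at least two. -/
theorem result :
    (∀ (R : Type u) [CommRing R], IsChainRingTwo R →
      ∀ q n a : ℕ, q = Nat.card (R ⧸ Ring.jacobson R) → 1 ≤ a → q ^ 2 + a ≤ n → n + a ≤ q ^ 2 + q →
        ∃ K : Pt R → ℕ, IsMaximalArc K (q * (q + 1) * n - q ^ 3) n ∧ ∃ x : Pt R, K x = a) ∧
    (∃ (R : Type) (_ : CommRing R), IsChainRingTwo R ∧
      ∃ n k : ℕ, n ≤ Nat.card (R ⧸ Ring.jacobson R) ^ 2 + Nat.card (R ⧸ Ring.jacobson R) ∧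
        ∃ K : Pt R → ℕ, IsMaximalArc K k n ∧ ∃ x : Pt R, 2 ≤ K x) := by
  refine ⟨fun R _ hR q n a hq ha h1 h2 => general R hR q n a hq ha h1 h2, ?_⟩
  obtain ⟨K, hK, x, hx⟩ := general (ZMod 25) isChainRingTwo_zmod25 5 27 2 zmod25_card.symm
    (by norm_num) (by norm_num) (by norm_num)
  refine ⟨ZMod 25, inferInstance, isChainRingTwo_zmod25, 27, _, ?_, K, hK, x, hx.ge⟩
  rw [zmod25_card]; norm_num

end Pool.Agent.Results.MP_4f92f0_co.NonProjectiveMaximalArcs
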